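import Pool.Agent.H176.DT.Stm

/-! DT-EXT+MAP: extension to full parameter systems, transport -/

set_option autoImplicit false
set_option linter.all false

universe u

namespace Pool.Agent.H447.DT

open IsLocalRing Pool.Agent.W418.LU2 Pool.Agent.H176.DT

theorem max_map {B B' : Type u} [CommRing B] [CommRing B'] [IsLocalRing B] [IsLocalRing B']
    (q : B ≃+* B') : (maximalIdeal B).map (q : B →+* B') = maximalIdeal B' := by
  apply le_antisymm
  · rw [Ideal.map_le_iff_le_comap]
    intro b hb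
    rw [Ideal.mem_comap, mem_maximalIdeal, mem_nonunits_iff]
    rw [mem_maximalIdeal, mem_nonunits_iff] at hb
    intro h
    exact hb ((isUnit_map_iff q b).1 h)
  · intro y hy
    obtain ⟨b, rfl⟩ := q.surjective y
    refine Ideal.mem_map_of_mem (q : B →+* B') ?_
    rw [mem_maximalIdeal, mem_nonunits_iff] at hy ⊢
    intro h
    exact hy (h.map q)

/-- transport along an isomorphism -/
theorem full_of_equiv {F : Type u} [Field F] {A P : Subring F} {κ : Type} [Fintype κ]
    {Q : Type u} [CommRing Q] [IsRegularLocalRing Q] (e : Q ≃+* P) {w : κ → Q}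
    (hspan : Ideal.span (Set.range w) = maximalIdeal Q)
    (hdim : ringKrullDim Q = (Fintype.card κ : ℕ)) {y : κ → F} (hy : ∀ k, y k = (e (w k) : F))
    (PA : P ≤ A) (inv : ∀ y ∈ P, y ≠ 0 → y⁻¹ ∈ A → y⁻¹ ∈ P) : Full A P y := by
  have hmem : ∀ k, y k ∈ P := fun k => by rw [hy]; exact (e (w k)).2
  have hreg : IsRegularLocalRing P := IsRegularLocalRing.of_ringEquiv e
  refine ⟨PA, hmem, hreg, inv, ?_, ?_⟩
  · rw [← max_map e, ← hspan, Ideal.map_span, ← Set.range_comp]
    congr 2
    funext k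
    exact Subtype.ext (hy k)
  · rw [← ringKrullDim_eq_of_ringEquiv e, hdim]

theorem ext : S_ext.{u} := by
  intro F _ A P ι _ x h hx
  classical
  have hreg := h.reg
  have hmax : ∀ i, (⟨x i, h.mem i⟩ : P) ∈ maximalIdeal P := fun i => by
    rw [h.mem_max]
    exact fun h3 => hx i h3.2
  have hInd : Ind (fun i => (⟨x i, h.mem i⟩ : P)) :=
    h.ind.ind (id : ι → ι) Function.injective_id fun i => hmax i
  obtain ⟨m, w, hw, hd⟩ := hInd.extend
  refine ⟨m, fun k => (w k : F), ?_⟩
  refine full_of_equiv (RingEquiv.refl P) hw ?_ ?_ h.PA h.inv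
  · rw [hd, Fintype.card_sum, Fintype.card_fin]
  · rintro (k | k)
    · rfl
    · rfl

theorem map : S_map.{u} := by
  intro E F _ _ f A A' hAA C ι _ x h
  have hreg := h.reg
  rw [lo_map f hAA]
  refine full_of_equiv ((lo A' C).equivMapOfInjective f f.injective) h.span h.dim (fun k => rfl)
    ?_ ?_
  · rintro _ ⟨a, ha, rfl⟩
    exact (hAA a).2 (h.PA ha)
  · rintro _ ⟨a, ha, rfl⟩ h0 h1
    rw [← map_inv₀] at h1 ⊢
    exact ⟨a⁻¹, h.inv a ha (fun h2 => h0 (by rw [h2, map_zero])) ((hAA _).1 h1), rfl⟩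

end Pool.Agent.H447.DT
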